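import Pool.Agent.U503.HP.Stm

/-!
# Project HP, package GEO (helper324 for helper503): boxes and translations in the unit ball
-/

set_option autoImplicit false

open Set Filter Topology Function
open Pool.Agent.Y453.HB Pool.Agent.R773.HN Pool.Agent.N235.DH

namespace Pool.Agent.U324.HP

noncomputable section

variable {n : ℕ}

/-- coordinate number `a` -/
def co (a : ℕ) (x : E n) : ℝ :=
  if h : a < n then x.1 ⟨a, h⟩ else if h' : a - n < n then x.2 ⟨a - n, h'⟩ else 0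

/-- unit vector number `a` -/
def ev (n a : ℕ) : E n :=
  (fun i => if (i : ℕ) = a then 1 else 0, fun i => if n + (i : ℕ) = a then 1 else 0)

theorem co_add (a : ℕ) {b : ℕ} (hb : b < 2 * n) (x : E n) (c : ℝ) :
    co b (x + c • ev n a) = co b x + (if b = a then c else 0) := by
  unfold co ev
  by_cases h : b < n
  · rw [dif_pos h, dif_pos h]
    change x.1 ⟨b, h⟩ + c * (if b = a then 1 else 0) = _
    split_ifs <;> simp
  · have h' : b - n < n := by omega
    rw [dif_neg h, dif_neg h, dif_pos h', dif_pos h']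
    change x.2 ⟨b - n, h'⟩ + c * (if n + (b - n) = a then 1 else 0) = _
    rw [show n + (b - n) = b by omega]
    split_ifs <;> simp

theorem co_left (x : E n) (i : Fin n) : co (i : ℕ) x = x.1 i := by
  unfold co
  rw [dif_pos i.2]

theorem co_right (x : E n) (i : Fin n) : co (n + (i : ℕ)) x = x.2 i := by
  unfold co
  have h1 : ¬ n + (i : ℕ) < n := by omega
  have h2 : n + (i : ℕ) - n < n := by omega
  have h3 : (⟨n + (i : ℕ) - n, h2⟩ : Fin n) = i := by
    apply Fin.ext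
    simp
  rw [dif_neg h1, dif_pos h2, h3]

theorem abs_co_le (a : ℕ) (x : E n) : |co a x| ≤ nm x := by
  have h1 : ∀ i, (x.1 i) ^ 2 ≤ Q x ∧ (x.2 i) ^ 2 ≤ Q x := by
    intro i
    have h := Finset.single_le_sum (f := fun i => (x.1 i) ^ 2 + (x.2 i) ^ 2)
      (fun j _ => by positivity) (Finset.mem_univ i)
    have h2 : (x.1 i) ^ 2 + (x.2 i) ^ 2 ≤ Q x := h
    constructor <;> nlinarith [sq_nonneg (x.1 i), sq_nonneg (x.2 i)]
  unfold co nm
  split_ifs with h h'
  · exact Real.abs_le_sqrt (h1 _).1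
  · exact Real.abs_le_sqrt (h1 _).2
  · rw [abs_zero]
    exact Real.sqrt_nonneg _

theorem Q_le {x : E n} {m : ℝ} (h : ∀ a < 2 * n, |co a x| ≤ m) : Q x ≤ n * (2 * m ^ 2) := by
  unfold Q
  calc ∑ i, ((x.1 i) ^ 2 + (x.2 i) ^ 2) ≤ ∑ _i : Fin n, (2 * m ^ 2) := by
        refine Finset.sum_le_sum fun i _ => ?_
        have h1 := h i (by omega)
        have h2 := h (n + i) (by omega)
        rw [co_left] at h1
        rw [co_right] at h2
        have h3 : (x.1 i) ^ 2 ≤ m ^ 2 := sq_le_sq' (by linarith [(abs_le.1 h1).1]) (abs_le.1 h1).2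
        have h4 : (x.2 i) ^ 2 ≤ m ^ 2 := sq_le_sq' (by linarith [(abs_le.1 h2).1]) (abs_le.1 h2).2
        linarith
    _ = n * (2 * m ^ 2) := by
        rw [Finset.sum_const, Finset.card_univ, Fintype.card_fin, nsmul_eq_mul]

theorem nm_ev (n a : ℕ) : nm (ev n a) ≤ 1 := by
  unfold nm
  rw [Real.sqrt_le_left zero_le_one, one_pow]
  unfold Q ev
  have h1 : ∀ i : Fin n, (if (i : ℕ) = a then (1 : ℝ) else 0) ^ 2 +
      (if n + (i : ℕ) = a then (1 : ℝ) else 0) ^ 2 =
      if (i : ℕ) = (if a < n then a else a - n) ∧ (a < n ∨ n ≤ a) then 1 else 0 := by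
    intro i
    by_cases ha : a < n
    · have h2 : ¬ n + (i : ℕ) = a := by omega
      rw [if_neg h2, if_pos ha]
      by_cases h3 : (i : ℕ) = a
      · rw [if_pos h3, if_pos ⟨h3, Or.inl ha⟩]
        norm_num
      · rw [if_neg h3, if_neg (fun h => h3 h.1)]
        norm_num
    · have h2 : ¬ (i : ℕ) = a := by omega
      rw [if_neg h2, if_neg ha]
      by_cases h3 : n + (i : ℕ) = a
      · rw [if_pos h3, if_pos ⟨by omega, Or.inr (by omega)⟩]
        norm_num
      · rw [if_neg h3, if_neg (fun h => h3 (by omega))]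
        norm_num
  simp only
  rw [Finset.sum_congr rfl fun i _ => h1 i, ← Finset.sum_filter, Finset.sum_const, nsmul_eq_mul,
    mul_one]
  have h4 : (Finset.univ.filter fun i : Fin n =>
      (i : ℕ) = (if a < n then a else a - n) ∧ (a < n ∨ n ≤ a)).card ≤ 1 := by
    rw [Finset.card_le_one]
    intro i hi j hj
    rw [Finset.mem_filter] at hi hj
    apply Fin.ext
    rw [hi.2.1, hj.2.1]
  exact_mod_cast h4

/-- the boxes -/
def Cb (n L : ℕ) (ρ : ℝ) (s : ℕ) : Set (E n) :=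
  {x | ∀ a < 2 * n, -ρ ≤ co a x ∧ co a x ≤ if a < s then (3 * L - 2) * ρ else ρ}

theorem Cb_sub {L : ℕ} (hn : 0 < n) (hL : 1 ≤ L) (s : ℕ) :
    Cb n L (1 / (12 * n * L)) s ⊆ D 0 (1 / 2) := by
  intro x hx
  have hn' : (1 : ℝ) ≤ n := by exact_mod_cast hn
  have hL' : (1 : ℝ) ≤ L := by exact_mod_cast hL
  have hρ : (0 : ℝ) < 1 / (12 * n * L) := by positivity
  have hm : 3 * L * (1 / (12 * n * L)) = (1 : ℝ) / (4 * n) := by
    field_simp
    norm_num
  have h1 : ∀ a < 2 * n, |co a x| ≤ 1 / (4 * n) := by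
    intro a ha
    obtain ⟨h2, h3⟩ := hx a ha
    rw [← hm]
    set ρ : ℝ := 1 / (12 * n * L) with hρd
    have h5 : ρ ≤ 3 * L * ρ := by nlinarith
    rw [abs_le]
    constructor
    · linarith
    · split_ifs at h3 with h6
      · nlinarith
      · linarith
  have h2 := Q_le h1
  have h3 : (n : ℝ) * (2 * (1 / (4 * n)) ^ 2) = 1 / (8 * n) := by
    field_simp
    norm_num
  rw [h3] at h2
  have h4 : (1 : ℝ) / (8 * n) ≤ 1 / 4 := by
    apply one_div_le_one_div_of_le (by norm_num)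
    linarith
  show nm (x - 0) ≤ 1 / 2
  rw [sub_zero]
  unfold nm
  rw [Real.sqrt_le_left (by norm_num)]
  linarith

/-- the homeomorphisms with support in a given set -/
def Ks (n : ℕ) (A : Set (E n)) : Subgroup (E n ≃ₜ E n) where
  carrier := {f | f ∈ HamBar n ∧ Supp A f}
  mul_mem' := fun ha hb => ⟨(HamBar n).mul_mem ha.1 hb.1, ha.2.mul hb.2⟩
  one_mem' := ⟨(HamBar n).one_mem, Supp.one A⟩
  inv_mem' := fun ha => ⟨(HamBar n).inv_mem ha.1, ha.2.inv⟩

theorem shift_mem {L : ℕ} {ρ : ℝ} (hρ : 0 < ρ) {s : ℕ} {x : E n}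
    (hx : x ∈ Cb n L ρ s) {i : ℕ} (hi : i < L) :
    x + (i * (3 * ρ)) • ev n s ∈ Cb n L ρ (s + 1) := by
  intro a ha
  obtain ⟨h1, h2⟩ := hx a ha
  rw [co_add s ha]
  have hi' : (i : ℝ) + 1 ≤ L := by exact_mod_cast hi
  have hi0 : (0 : ℝ) ≤ i := Nat.cast_nonneg i
  by_cases h3 : a = s
  · rw [if_pos h3, if_pos (by omega)]
    rw [if_neg (by omega)] at h2
    constructor
    · have : (0 : ℝ) ≤ i * (3 * ρ) := by positivity
      linarith
    · nlinarith
  · rw [if_neg h3, add_zero]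
    refine ⟨h1, ?_⟩
    by_cases h4 : a < s
    · rw [if_pos h4] at h2
      rwa [if_pos (by omega)]
    · rw [if_neg h4] at h2
      rwa [if_neg (by omega)]

theorem pow_shift {L : ℕ} {ρ : ℝ} (hρ : 0 < ρ)
    (hC : ∀ s, Cb n L ρ s ⊆ D 0 (1 / 2)) {s : ℕ} {κ : E n ≃ₜ E n}
    (hκ : ∀ x ∈ D 0 (1 / 2), κ x = x + (3 * ρ) • ev n s) {x : E n} (hx : x ∈ Cb n L ρ s) (i : ℕ)
    (hi : i < L) : (κ ^ i) x = x + (i * (3 * ρ)) • ev n s := by
  induction i with
  | zero => simp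
  | succ i ih =>
    have h1 := ih (by omega)
    rw [pow_succ', mul_apply, h1, hκ _ (hC (s + 1) (shift_mem hρ hx (by omega))), add_assoc,
      ← add_smul]
    congr 2
    push_cast
    ring

theorem t_GEO : Pool.Agent.U503.HP.S_GEO := by
  intro n L hn hL
  have hn' : (1 : ℝ) ≤ n := by exact_mod_cast hn
  have hL' : (1 : ℝ) ≤ L := by exact_mod_cast hL
  have hC : ∀ s, Cb n L (1 / (12 * n * L)) s ⊆ D 0 (1 / 2) := Cb_sub hn hL
  have hρ' : (0 : ℝ) < 1 / (12 * n * L) := by positivity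
  have hρ2 : (1 : ℝ) / (12 * n * L) ≤ 1 / 12 := by
    apply one_div_le_one_div_of_le (by norm_num)
    nlinarith
  generalize hρd : (1 : ℝ) / (12 * n * L) = ρ at hC hρ' hρ2
  have hex : ∀ s : ℕ, ∃ κ : E n ≃ₜ E n, IsHam κ ∧ Supp (D 0 (9 / 10)) κ ∧
      ∀ x ∈ D 0 (1 / 2), κ x = x + (3 * ρ) • ev n s := by
    intro s
    refine hT n 0 0 ((3 * ρ) • ev n s) (1 / 2) (9 / 10) (by norm_num) ?_ ?_ ?_
    · rw [nm_zero]; norm_num
    · rw [sub_zero, nm_zero]; norm_num
    · rw [sub_zero, zero_add, nm_smul, abs_of_pos (by positivity)]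
      have := nm_ev n s
      nlinarith
  choose κ hκ1 hκ2 hκ3 using hex
  have himg : ∀ s, ∀ i < L, (κ s ^ i) '' Cb n L ρ s ⊆ Cb n L ρ (s + 1) := by
    rintro s i hi _ ⟨x, hx, rfl⟩
    rw [pow_shift hρ' hC (hκ3 s) hx i hi]
    exact shift_mem hρ' hx hi
  have hham : ∀ s, κ s ∈ HamBar n := fun s => isHam_mem (hκ1 s)
  refine ⟨fun s => Ks n (Cb n L ρ s), κ, fun s _ f hf => hf.1, fun s _ => hham s, ?_, ?_, ?_⟩
  · intro s hs i hi a ha
    exact ⟨(HamBar n).mul_mem ((HamBar n).mul_mem ((HamBar n).pow_mem (hham s) i) ha.1)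
      ((HamBar n).inv_mem ((HamBar n).pow_mem (hham s) i)), (ha.2.conj (κ s ^ i)).mono (himg s i hi)⟩
  · intro s hs i hi j hj hij a ha b hb
    refine Supp.commute ?_ (ha.2.conj (κ s ^ i)) (hb.2.conj (κ s ^ j))
    rw [Set.disjoint_left]
    rintro _ ⟨x, hx, rfl⟩ ⟨y, hy, hxy⟩
    rw [pow_shift hρ' hC (hκ3 s) hx i hi, pow_shift hρ' hC (hκ3 s) hy j hj] at hxy
    have h1 := congrArg (co s) hxy
    rw [co_add s hs, co_add s hs, if_pos rfl, if_pos rfl] at h1
    obtain ⟨h2, h3⟩ := hx s hs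
    obtain ⟨h4, h5⟩ := hy s hs
    rw [if_neg (lt_irrefl s)] at h3 h5
    rcases lt_or_gt_of_ne hij with h | h
    · have h6 : (i : ℝ) + 1 ≤ j := by exact_mod_cast h
      nlinarith
    · have h6 : (j : ℝ) + 1 ≤ i := by exact_mod_cast h
      nlinarith
  · intro f hf hfs
    refine ⟨hf, hfs.mono ?_⟩
    intro x hx
    have h1 : nm (x - 0) ≤ ρ := hx
    rw [sub_zero] at h1
    intro a ha
    have h2 := abs_le.1 ((abs_co_le a x).trans h1)
    rw [if_neg (Nat.not_lt_zero a)]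
    exact h2

end

end Pool.Agent.U324.HP
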